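import Mathlib

/-!
# The Hilbert metric of the disk plus the taxicab metric
-/

set_option autoImplicit false

namespace Pool.Agent.X181.BH

open Real

/-- the open unit disk -/
def M : Set (ℝ × ℝ) := {p | p.1 ^ 2 + p.2 ^ 2 < 1}

/-- the point with affine coordinate `s` of the line through `x` (coordinate `0`) and `y`
(coordinate `1`) lies on the unit circle -/
def OnCircle (x y : ℝ × ℝ) (s : ℝ) : Prop :=
  (x.1 + s * (y.1 - x.1)) ^ 2 + (x.2 + s * (y.2 - x.2)) ^ 2 = 1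

/-- `h` is the Hilbert metric of the disk (without factor `1/2`): `h(x,x) = 0` and
`h(x,y) = |log {x,y;a,b}|`, the cross ratio being computed in the affine coordinate of the line in
which `x`, `y` have the coordinates `0`, `1`. -/
def IsHilbert (h : ℝ × ℝ → ℝ × ℝ → ℝ) : Prop :=
  ∀ x ∈ M, ∀ y ∈ M, (x = y → h x y = 0) ∧ (x ≠ y → ∀ a b : ℝ, a ≠ b → OnCircle x y a →
    OnCircle x y b → h x y = |log (((0 - a) * (1 - b)) / ((0 - b) * (1 - a)))|)

/-- the taxicab metric -/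
def taxi (x y : ℝ × ℝ) : ℝ := |x.1 - y.1| + |x.2 - y.2|

/-- `p` is a midpoint of the segment `[x,y]` with respect to `d` -/
def IsMid (d : ℝ × ℝ → ℝ × ℝ → ℝ) (x y p : ℝ × ℝ) : Prop :=
  p ∈ segment ℝ x y ∧ d x p = d p y

/-- nonpositive curvature in the sense of Busemann of the disk with the metric `d` -/
def BusemannNPC (d : ℝ × ℝ → ℝ × ℝ → ℝ) : Prop :=
  ∀ c ∈ M, ∃ r > 0, ∀ x ∈ M, ∀ y ∈ M, ∀ z ∈ M, dist x c < r → dist y c < r → dist z c < r →
    ∀ p q, IsMid d x y p → IsMid d x z q → 2 * d p q ≤ d y z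

/-! ### formula -/

def NN (x y : ℝ × ℝ) : ℝ := 1 - (x.1 * y.1 + x.2 * y.2)
def DD (x y : ℝ × ℝ) : ℝ := NN x y ^ 2 - (1 - x.1 ^ 2 - x.2 ^ 2) * (1 - y.1 ^ 2 - y.2 ^ 2)

noncomputable def hf (x y : ℝ × ℝ) : ℝ := log ((NN x y + √(DD x y)) / (NN x y - √(DD x y)))

theorem DD_eq (x y : ℝ × ℝ) : DD x y = (x.1 * (y.1 - x.1) + x.2 * (y.2 - x.2)) ^ 2 +
    ((y.1 - x.1) ^ 2 + (y.2 - x.2) ^ 2) * (1 - x.1 ^ 2 - x.2 ^ 2) := by
  unfold DD NN; ring

theorem DD_nonneg {x : ℝ × ℝ} (hx : x ∈ M) (y : ℝ × ℝ) : 0 ≤ DD x y := by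
  rw [DD_eq]
  have h : 0 < 1 - x.1 ^ 2 - x.2 ^ 2 := by
    have : x.1 ^ 2 + x.2 ^ 2 < 1 := hx
    linarith
  positivity

theorem NN_pos {x y : ℝ × ℝ} (hx : x ∈ M) (hy : y ∈ M) : 0 < NN x y := by
  have h1 : x.1 ^ 2 + x.2 ^ 2 < 1 := hx
  have h2 : y.1 ^ 2 + y.2 ^ 2 < 1 := hy
  unfold NN
  nlinarith [sq_nonneg (x.1 - y.1), sq_nonneg (x.2 - y.2)]

theorem NN_gt {x y : ℝ × ℝ} (hx : x ∈ M) (hy : y ∈ M) : √(DD x y) < NN x y := by
  have h1 : x.1 ^ 2 + x.2 ^ 2 < 1 := hx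
  have h2 : y.1 ^ 2 + y.2 ^ 2 < 1 := hy
  rw [Real.sqrt_lt' (NN_pos hx hy)]
  unfold DD
  have : 0 < (1 - x.1 ^ 2 - x.2 ^ 2) * (1 - y.1 ^ 2 - y.2 ^ 2) :=
    mul_pos (by linarith) (by linarith)
  linarith

theorem cross {x y : ℝ × ℝ} {A B r : ℝ} (hA : 0 < A)
    (hA' : A = (y.1 - x.1) ^ 2 + (y.2 - x.2) ^ 2) (hB : B = x.1 * (y.1 - x.1) + x.2 * (y.2 - x.2))
    (hr : r ^ 2 = DD x y) (hrN : |r| < NN x y) :
    ((0 - (-B - r) / A) * (1 - (-B + r) / A)) / ((0 - (-B + r) / A) * (1 - (-B - r) / A)) =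
      (NN x y - r) / (NN x y + r) := by
  have hD := DD_eq x y
  rw [← hr, ← hA', ← hB] at hD
  have e1 : (0 - (-B - r) / A) * (1 - (-B + r) / A) = -(NN x y - r) / A := by
    field_simp
    have : NN x y = 1 - x.1 ^ 2 - x.2 ^ 2 - B := by rw [hB]; unfold NN; ring
    rw [this]
    linear_combination -hD
  have e2 : (0 - (-B + r) / A) * (1 - (-B - r) / A) = -(NN x y + r) / A := by
    field_simp
    have : NN x y = 1 - x.1 ^ 2 - x.2 ^ 2 - B := by rw [hB]; unfold NN; ring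
    rw [this]
    linear_combination -hD
  have hN := abs_lt.1 hrN
  have h1 : NN x y + r ≠ 0 := by linarith [hN.1]
  rw [e1, e2]
  field_simp

theorem A_pos {x y : ℝ × ℝ} (hxy : x ≠ y) : 0 < (y.1 - x.1) ^ 2 + (y.2 - x.2) ^ 2 := by
  by_contra h
  push Not at h
  have h1 := sq_nonneg (y.1 - x.1)
  have h2 := sq_nonneg (y.2 - x.2)
  have h3 : y.1 - x.1 = 0 := pow_eq_zero_iff two_ne_zero |>.1 (by linarith)
  have h4 : y.2 - x.2 = 0 := pow_eq_zero_iff two_ne_zero |>.1 (by linarith)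
  exact hxy (Prod.ext (by linarith) (by linarith))

theorem log_abs {N r : ℝ} (hr : 0 ≤ r) (h : r < N) :
    |log ((N - r) / (N + r))| = log ((N + r) / (N - r)) := by
  have h1 : 0 < N - r := by linarith
  have h2 : 0 < N + r := by linarith
  have h3 : log ((N - r) / (N + r)) ≤ 0 := by
    apply Real.log_nonpos (div_pos h1 h2).le
    rw [div_le_one h2]
    linarith
  rw [abs_of_nonpos h3, ← Real.log_inv, inv_div]

theorem log_abs' {N r : ℝ} (hr : 0 ≤ r) (h : r < N) :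
    |log ((N + r) / (N - r))| = log ((N + r) / (N - r)) := by
  have h1 : 0 < N - r := by linarith
  apply abs_of_nonneg
  apply Real.log_nonneg
  rw [le_div_iff₀ h1]
  linarith

theorem hf_isHilbert : IsHilbert hf := by
  intro x hx y hy
  constructor
  · rintro rfl
    have hD : DD x x = 0 := by unfold DD NN; ring
    rw [hf, hD, sqrt_zero, add_zero, sub_zero, div_self (NN_pos hx hy).ne', log_one]
  · intro hxy a b hab ha hb
    obtain ⟨A, hA⟩ : ∃ A, A = (y.1 - x.1) ^ 2 + (y.2 - x.2) ^ 2 := ⟨_, rfl⟩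
    obtain ⟨B, hB⟩ : ∃ B, B = x.1 * (y.1 - x.1) + x.2 * (y.2 - x.2) := ⟨_, rfl⟩
    have hA0 : 0 < A := hA ▸ A_pos hxy
    have hD := DD_eq x y
    rw [← hA, ← hB] at hD
    have qa : A * a ^ 2 + 2 * B * a - (1 - x.1 ^ 2 - x.2 ^ 2) = 0 := by
      have : (x.1 + a * (y.1 - x.1)) ^ 2 + (x.2 + a * (y.2 - x.2)) ^ 2 = 1 := ha
      rw [hA, hB]; linear_combination this
    have qb : A * b ^ 2 + 2 * B * b - (1 - x.1 ^ 2 - x.2 ^ 2) = 0 := by
      have : (x.1 + b * (y.1 - x.1)) ^ 2 + (x.2 + b * (y.2 - x.2)) ^ 2 = 1 := hb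
      rw [hA, hB]; linear_combination this
    have hs : A * (a + b) + 2 * B = 0 := by
      have h1 : (a - b) * (A * (a + b) + 2 * B) = 0 := by linear_combination qa - qb
      exact (mul_eq_zero.1 h1).resolve_left (sub_ne_zero.2 hab)
    -- r = A b + B, so b = (-B + r)/A and a = (-B - r)/A
    obtain ⟨r, hr⟩ : ∃ r, r = A * b + B := ⟨_, rfl⟩
    have hr2 : r ^ 2 = DD x y := by
      rw [hD, hr]; linear_combination A * qb
    have hb' : b = (-B + r) / A := by rw [hr]; field_simp; ring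
    have ha' : a = (-B - r) / A := by
      rw [hr]; field_simp; linear_combination hs
    have hrs : √(DD x y) = |r| := by rw [← hr2, sqrt_sq_eq_abs]
    have hN := NN_gt hx hy
    rw [hrs] at hN
    rw [ha', hb', cross hA0 hA hB hr2 hN, hf, hrs]
    rcases le_total 0 r with h | h
    · rw [abs_of_nonneg h] at hN ⊢
      exact (log_abs h hN).symm
    · rw [abs_of_nonpos h] at hN ⊢
      have := log_abs' (N := NN x y) (r := -r) (by linarith) hN
      rw [← this]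
      congr 2
      ring

theorem hilbert_eq {h : ℝ × ℝ → ℝ × ℝ → ℝ} (hh : IsHilbert h) {x y : ℝ × ℝ} (hx : x ∈ M)
    (hy : y ∈ M) : h x y = hf x y := by
  by_cases hxy : x = y
  · rw [((hh x hx y hy).1 hxy), ((hf_isHilbert x hx y hy).1 hxy)]
  · obtain ⟨A, hA⟩ : ∃ A, A = (y.1 - x.1) ^ 2 + (y.2 - x.2) ^ 2 := ⟨_, rfl⟩
    obtain ⟨B, hB⟩ : ∃ B, B = x.1 * (y.1 - x.1) + x.2 * (y.2 - x.2) := ⟨_, rfl⟩
    have hA0 : 0 < A := hA ▸ A_pos hxy
    have hD := DD_eq x y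
    rw [← hA, ← hB] at hD
    have hDpos : 0 < DD x y := by
      have h1 : x.1 ^ 2 + x.2 ^ 2 < 1 := hx
      have h2 : 0 < A * (1 - x.1 ^ 2 - x.2 ^ 2) := mul_pos hA0 (by linarith)
      rw [hD]
      nlinarith [sq_nonneg B]
    have hs : √(DD x y) ^ 2 = DD x y := sq_sqrt hDpos.le
    have key : ∀ e : ℝ, e ^ 2 = 1 → OnCircle x y ((-B + e * √(DD x y)) / A) := by
      intro e he
      have h1 : A * ((-B + e * √(DD x y)) / A) ^ 2 + 2 * B * ((-B + e * √(DD x y)) / A) -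
          (1 - x.1 ^ 2 - x.2 ^ 2) = 0 := by
        field_simp
        linear_combination hs * e ^ 2 + DD x y * he + hD
      unfold OnCircle
      rw [hA, hB] at h1 ⊢
      linear_combination h1
    have h1 := key 1 (by norm_num)
    have h2 := key (-1) (by norm_num)
    have hne : (-B + (-1) * √(DD x y)) / A ≠ (-B + 1 * √(DD x y)) / A := by
      intro h
      have h3 := sqrt_pos.2 hDpos
      field_simp at h
      linarith
    rw [(hh x hx y hy).2 hxy _ _ hne h2 h1, (hf_isHilbert x hx y hy).2 hxy _ _ hne h2 h1]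

end Pool.Agent.X181.BH
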