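import Pool.Agent.X181.BH.Main

/-!
# The disk with Hilbert plus taxicab metric is not nonpositively curved in the sense of Busemann
-/

set_option autoImplicit false

namespace Pool.Agent.X181.BH

open Real

/-- `g t = log((8/5+t)/(2/5-t)) - log 4 + t` -/
noncomputable def gg (t : ℝ) : ℝ := log ((8 / 5 + t) / (2 / 5 - t)) - log 4 + t

noncomputable def ff (t : ℝ) : ℝ := log ((4 / 5 + t) / (4 / 5 - t)) + t

theorem gg_zero : gg 0 = 0 := by
  unfold gg; norm_num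

theorem ff_zero : ff 0 = 0 := by
  unfold ff; norm_num

theorem gg_lt {s t : ℝ} (hs : 0 ≤ s) (hst : s < t) (ht : t < 2 / 5) : gg s < gg t := by
  unfold gg
  have h1 : 0 < 2 / 5 - t := by linarith
  have h2 : 0 < 2 / 5 - s := by linarith
  have h3 : (8 / 5 + s) / (2 / 5 - s) ≤ (8 / 5 + t) / (2 / 5 - t) := by
    rw [div_le_div_iff₀ h2 h1]
    nlinarith
  have h4 := log_le_log (div_pos (by linarith : (0 : ℝ) < 8 / 5 + s) h2) h3
  linarith

theorem ff_lt {s t : ℝ} (hs : 0 ≤ s) (hst : s < t) (ht : t < 4 / 5) : ff s < ff t := by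
  unfold ff
  have h1 : 0 < 4 / 5 - t := by linarith
  have h2 : 0 < 4 / 5 - s := by linarith
  have h3 : (4 / 5 + s) / (4 / 5 - s) ≤ (4 / 5 + t) / (4 / 5 - t) := by
    rw [div_le_div_iff₀ h2 h1]
    nlinarith
  have h4 := log_le_log (div_pos (by linarith : (0 : ℝ) < 4 / 5 + s) h2) h3
  linarith

theorem gg_cont {e : ℝ} (he : e < 2 / 5) : ContinuousOn gg (Set.Icc 0 e) := by
  unfold gg
  have h : ∀ x ∈ Set.Icc (0 : ℝ) e, (2 / 5 - x) ≠ 0 := fun x hx => by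
    have := hx.2; exact (by linarith : 0 < 2 / 5 - x).ne'
  have h' : ∀ x ∈ Set.Icc (0 : ℝ) e, (8 / 5 + x) / (2 / 5 - x) ≠ 0 := fun x hx => by
    have h1 := hx.2
    have h2 := hx.1
    exact (div_pos (by linarith : (0 : ℝ) < 8 / 5 + x) (by linarith : 0 < 2 / 5 - x)).ne'
  have h3 : ContinuousOn (fun x : ℝ => (8 / 5 + x) / (2 / 5 - x)) (Set.Icc 0 e) :=
    ContinuousOn.div (by fun_prop) (by fun_prop) h
  exact ((h3.log h').sub continuousOn_const).add continuousOn_id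

theorem ff_cont {e : ℝ} (he : e < 4 / 5) : ContinuousOn ff (Set.Icc 0 e) := by
  unfold ff
  have h : ∀ x ∈ Set.Icc (0 : ℝ) e, (4 / 5 - x) ≠ 0 := fun x hx => by
    have := hx.2; exact (by linarith : 0 < 4 / 5 - x).ne'
  have h' : ∀ x ∈ Set.Icc (0 : ℝ) e, (4 / 5 + x) / (4 / 5 - x) ≠ 0 := fun x hx => by
    have h1 := hx.2
    have h2 := hx.1
    exact (div_pos (by linarith : (0 : ℝ) < 4 / 5 + x) (by linarith : 0 < 4 / 5 - x)).ne'
  have h3 : ContinuousOn (fun x : ℝ => (4 / 5 + x) / (4 / 5 - x)) (Set.Icc 0 e) :=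
    ContinuousOn.div (by fun_prop) (by fun_prop) h
  exact (h3.log h').add continuousOn_id

/-- the horizontal midpoint -/
theorem ex_u {e : ℝ} (he : 0 < e) (he' : e ≤ 1 / 8000) :
    ∃ u, 0 ≤ u ∧ u ≤ e ∧ 2 * gg u = gg e ∧ e / 2 + e ^ 2 / 6 ≤ u := by
  have hpos : 0 < gg e := by
    have := gg_lt le_rfl he (by linarith : e < 2 / 5)
    rwa [gg_zero] at this
  have hivt := intermediate_value_Icc he.le (gg_cont (by linarith : e < 2 / 5))
  obtain ⟨u, hu, hgu⟩ := hivt (show gg e / 2 ∈ Set.Icc (gg 0) (gg e) by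
    rw [gg_zero]; constructor <;> linarith)
  refine ⟨u, hu.1, hu.2, by rw [hgu]; ring, ?_⟩
  by_contra hlt
  push Not at hlt
  obtain ⟨w, hw⟩ : ∃ w, w = e / 2 + e ^ 2 / 6 := ⟨_, rfl⟩
  rw [← hw] at hlt
  have hwe : w < e := by rw [hw]; nlinarith
  have hw0 : 0 < w := by rw [hw]; positivity
  have h1 := gg_lt hu.1 hlt (by linarith)
  have h2 : 2 * gg w ≤ gg e := by
    unfold gg
    have a1 : 0 < 2 / 5 - w := by linarith
    have a2 : 0 < 2 / 5 - e := by linarith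
    have a3 : 0 < 8 / 5 + w := by linarith
    have a4 : 0 < 8 / 5 + e := by linarith
    have hR : log ((4 * (8 / 5 + e) * (2 / 5 - w) ^ 2) / ((2 / 5 - e) * (8 / 5 + w) ^ 2)) =
        log ((8 / 5 + e) / (2 / 5 - e)) + log 4 - 2 * log ((8 / 5 + w) / (2 / 5 - w)) := by
      rw [log_div (by positivity) (by positivity), log_mul (by positivity) (by positivity),
        log_mul (by positivity) (by positivity), log_mul (by positivity) (by positivity),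
        log_pow, log_pow, log_div (by positivity) (by positivity),
        log_div (by positivity) (by positivity)]
      push_cast
      ring
    have hRpos : 0 < (4 * (8 / 5 + e) * (2 / 5 - w) ^ 2) / ((2 / 5 - e) * (8 / 5 + w) ^ 2) := by
      positivity
    have hl := one_sub_inv_le_log_of_pos hRpos
    rw [hR, inv_div] at hl
    have hin : (2 / 5 - e) * (8 / 5 + w) ^ 2 / (4 * (8 / 5 + e) * (2 / 5 - w) ^ 2) ≤
        1 - e ^ 2 / 3 := by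
      rw [div_le_iff₀ (by positivity)]
      have e1 : 0 ≤ e ^ 2 * (23 / 250 + 289 / 100 * e + e ^ 2 * (289 / 225 - 67 / 180 * e -
          38 / 135 * e ^ 2 - 1 / 27 * e ^ 3)) := by
        have b1 : e ^ 2 ≤ 1 := by nlinarith
        have b2 : e ^ 3 ≤ 1 := by nlinarith [sq_nonneg e]
        have b3 : 0 ≤ 289 / 225 - 67 / 180 * e - 38 / 135 * e ^ 2 - 1 / 27 * e ^ 3 := by linarith
        positivity
      rw [hw]
      linear_combination e1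
    have : 2 * w - e = e ^ 2 / 3 := by rw [hw]; ring
    linarith
  linarith

/-- the vertical midpoint -/
theorem ex_v {d : ℝ} (hd : 0 < d) (hd' : d ≤ 1 / 20) :
    ∃ v, 0 < v ∧ v ≤ d ∧ 2 * ff v = ff d ∧ v ≤ d / 2 + d ^ 3 / 4 := by
  have hpos : 0 < ff d := by
    have := ff_lt le_rfl hd (by linarith : d < 4 / 5)
    rwa [ff_zero] at this
  have hivt := intermediate_value_Icc hd.le (ff_cont (by linarith : d < 4 / 5))
  obtain ⟨v, hv, hgv⟩ := hivt (show ff d / 2 ∈ Set.Icc (ff 0) (ff d) by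
    rw [ff_zero]; constructor <;> linarith)
  have hv0 : 0 < v := by
    rcases hv.1.eq_or_lt with h | h
    · rw [← h, ff_zero] at hgv; linarith
    · exact h
  refine ⟨v, hv0, hv.2, by rw [hgv]; ring, ?_⟩
  by_contra hlt
  push Not at hlt
  obtain ⟨w, hw⟩ : ∃ w, w = d / 2 + d ^ 3 / 4 := ⟨_, rfl⟩
  rw [← hw] at hlt
  have hw0 : 0 < w := by rw [hw]; positivity
  have h1 := ff_lt hw0.le hlt (by linarith [hv.2])
  have h2 : ff d ≤ 2 * ff w := by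
    have hv2 := hv.2
    unfold ff
    have a1 : 0 < 4 / 5 - w := by linarith
    have a2 : 0 < 4 / 5 - d := by linarith
    have a3 : 0 < 4 / 5 + w := by linarith
    have a4 : 0 < 4 / 5 + d := by linarith
    have hR : log ((4 / 5 + d) / (4 / 5 - d)) ≤ log (((4 / 5 + w) / (4 / 5 - w)) ^ 2) := by
      apply log_le_log (by positivity)
      rw [div_pow, div_le_div_iff₀ a2 (by positivity), hw]
      have b1 : d ^ 2 ≤ 1 / 400 := by nlinarith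
      have b2 : d ^ 4 ≤ 1 / 400 := by nlinarith [sq_nonneg d]
      have e1 : 0 ≤ d ^ 3 * (7 / 50 - 1 / 2 * d ^ 2 - 1 / 8 * d ^ 4) := by
        have b3 : 0 ≤ 7 / 50 - 1 / 2 * d ^ 2 - 1 / 8 * d ^ 4 := by linarith
        positivity
      linear_combination e1
    rw [log_pow] at hR
    push_cast at hR
    have : 2 * w - d = d ^ 3 / 2 := by rw [hw]; ring
    have : 0 < d ^ 3 := by positivity
    linarith
  linarith

/-- the distances -/
noncomputable def dd (x y : ℝ × ℝ) : ℝ := hf x y + taxi x y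

theorem mem_h {u : ℝ} (h0 : 0 ≤ u) (h1 : u ≤ 1 / 8000) : ((3 / 5 + u, 0) : ℝ × ℝ) ∈ M := by
  show (3 / 5 + u) ^ 2 + (0 : ℝ) ^ 2 < 1
  nlinarith

theorem mem_v {v : ℝ} (h0 : 0 ≤ v) (h1 : v ≤ 1 / 20) : ((3 / 5, v) : ℝ × ℝ) ∈ M := by
  show (3 / 5 : ℝ) ^ 2 + v ^ 2 < 1
  nlinarith

theorem dd_h {s t : ℝ} (hs : 0 ≤ s) (hst : s ≤ t) (ht : t ≤ 1 / 8000) :
    dd (3 / 5 + s, 0) (3 / 5 + t, 0) = gg t - gg s := by
  unfold dd gg taxi
  rw [hor (by linarith) (by linarith) (by linarith)]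
  simp only [sub_self, abs_zero, add_zero]
  rw [abs_of_nonpos (by linarith)]
  rw [show 1 + (3 / 5 + t) = 8 / 5 + t by ring, show 1 - (3 / 5 + t) = 2 / 5 - t by ring,
    show 1 + (3 / 5 + s) = 8 / 5 + s by ring, show 1 - (3 / 5 + s) = 2 / 5 - s by ring]
  ring

theorem dd_v {s t : ℝ} (hs : 0 ≤ s) (hst : s ≤ t) (ht : t ≤ 1 / 20) :
    dd (3 / 5, s) (3 / 5, t) = ff t - ff s := by
  unfold dd ff taxi
  rw [ver (by linarith) hst (by linarith)]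
  simp only [sub_self, abs_zero, zero_add]
  rw [abs_of_nonpos (by linarith)]
  ring

theorem dd_o {u v W : ℝ} (hu : 0 ≤ u) (hu' : u ≤ 1 / 8000) (hv : 0 < v) (hv' : v ≤ 1 / 20)
    (hW : W = 16 / 25 - 6 / 5 * u - u ^ 2) :
    dd (3 / 5 + u, 0) (3 / 5, v) = FF v (u ^ 2 / W) - FF v 0 + ff v + u := by
  have hW0 : 0 < W := by rw [hW]; nlinarith
  unfold dd taxi ff
  rw [obl hW hW0 (by linarith) (by nlinarith), FF_zero hv]
  simp only [zero_sub, abs_neg]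
  rw [abs_of_pos hv, show 3 / 5 + u - 3 / 5 = u by ring, abs_of_nonneg hu]
  have h1 : 0 < 4 / 5 + v := by linarith
  have h2 : 0 < 4 / 5 - v := by linarith
  rw [log_div h1.ne' h2.ne', show 16 / 25 - v ^ 2 = (4 / 5 + v) * (4 / 5 - v) by ring,
    log_mul h1.ne' h2.ne']
  ring

theorem FF_mono {v E F : ℝ} (hE : 0 ≤ E) (hEF : E ≤ F) : FF v E ≤ FF v F := by
  unfold FF
  have h1 : √(16 / 25 + E) ≤ √(16 / 25 + F) := sqrt_le_sqrt (by linarith)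
  have h2 : √(v ^ 2 + E) ≤ √(v ^ 2 + F) := sqrt_le_sqrt (by linarith)
  have h3 : 0 < √(16 / 25 + E) := sqrt_pos.2 (by positivity)
  have h4 : 0 ≤ √(v ^ 2 + E) := sqrt_nonneg _
  have := log_le_log (by linarith) (add_le_add h1 h2)
  linarith

/-- the inequality -/
theorem main_ineq {δ u v : ℝ} (hδ : 0 < δ) (hδ' : δ ≤ 1 / 20) (hu0 : 0 ≤ u) (hu1 : u ≤ δ ^ 3)
    (hu : 2 * gg u = gg (δ ^ 3)) (hul : δ ^ 3 / 2 + (δ ^ 3) ^ 2 / 6 ≤ u)
    (hv0 : 0 < v) (hv1 : v ≤ δ) (hv : 2 * ff v = ff δ) (hvu : v ≤ δ / 2 + δ ^ 3 / 4) :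
    dd (3 / 5 + δ ^ 3, 0) (3 / 5, δ) < 2 * dd (3 / 5 + u, 0) (3 / 5, v) := by
  have hd2 : δ ^ 2 ≤ 1 / 400 := by nlinarith
  have hd3 : δ ^ 3 ≤ 1 / 8000 := by nlinarith [sq_nonneg δ]
  have hd3' : 0 < δ ^ 3 := by positivity
  obtain ⟨W1, hW1⟩ : ∃ W, W = 16 / 25 - 6 / 5 * u - u ^ 2 := ⟨_, rfl⟩
  obtain ⟨W2, hW2⟩ : ∃ W, W = 16 / 25 - 6 / 5 * (δ ^ 3) - (δ ^ 3) ^ 2 := ⟨_, rfl⟩
  rw [dd_o hu0 (hu1.trans hd3) hv0 (hv1.trans hδ') hW1, dd_o hd3'.le hd3 hδ hδ' hW2]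
  have hW1' : 0 < W1 := by rw [hW1]; nlinarith
  have hW2' : 0 < W2 := by rw [hW2]; nlinarith
  have hW1'' : W1 ≤ 16 / 25 := by rw [hW1]; nlinarith
  have hul' : δ ^ 3 / 2 ≤ u := by
    have : 0 ≤ (δ ^ 3) ^ 2 / 6 := by positivity
    linarith
  obtain ⟨E0, hE0⟩ : ∃ E0, E0 = 25 / 64 * (δ ^ 3) ^ 2 := ⟨_, rfl⟩
  have hE0' : 0 < E0 := by rw [hE0]; positivity
  have h1 : E0 ≤ u ^ 2 / W1 := by
    rw [le_div_iff₀ hW1', hE0]
    have : (δ ^ 3 / 2) ^ 2 ≤ u ^ 2 := by gcongr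
    nlinarith [mul_le_mul_of_nonneg_left hW1'' (by positivity : 0 ≤ 25 / 64 * (δ ^ 3) ^ 2)]
  have h2 := FF_mono (v := v) hE0'.le h1
  have h3 := (FF_mvt hv0 hE0').1
  have h4 := (FF_mvt (E := (δ ^ 3) ^ 2 / W2) hδ (by positivity)).2
  have h5 : √((v ^ 2 + E0) * (16 / 25 + E0)) ≤ 2 / 5 * δ * (1 + δ ^ 2) := by
    apply sqrt_le_iff.2 ⟨by positivity, ?_⟩
    have h6 : v ^ 2 ≤ (δ / 2 + δ ^ 3 / 4) ^ 2 := by gcongr
    have h7 : (v ^ 2 + E0) * (16 / 25 + E0) ≤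
        ((δ / 2 + δ ^ 3 / 4) ^ 2 + E0) * (16 / 25 + E0) := by gcongr
    refine h7.trans ?_
    rw [hE0]
    have h8 : 0 ≤ δ ^ 4 * (4 / 25 - 13 / 100 * δ ^ 2 - 25 / 256 * δ ^ 4 - 25 / 256 * δ ^ 6 -
        725 / 4096 * δ ^ 8) := by
      have b2 : δ ^ 4 ≤ 1 / 400 := by nlinarith [sq_nonneg δ]
      have b3 : δ ^ 6 ≤ 1 / 400 := by nlinarith [sq_nonneg (δ ^ 3)]
      have b4 : δ ^ 8 ≤ 1 / 400 := by nlinarith [sq_nonneg (δ ^ 4)]
      have : 0 ≤ 4 / 25 - 13 / 100 * δ ^ 2 - 25 / 256 * δ ^ 4 - 25 / 256 * δ ^ 6 -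
        725 / 4096 * δ ^ 8 := by linarith
      positivity
    linear_combination h8
  have h6 : E0 / (2 / 5 * δ * (1 + δ ^ 2)) ≤ E0 / √((v ^ 2 + E0) * (16 / 25 + E0)) := by
    apply div_le_div_of_nonneg_left hE0'.le _ h5
    exact sqrt_pos.2 (by positivity)
  have h7 : (δ ^ 3) ^ 2 / W2 / (4 / 5 * δ) < 2 * (E0 / (2 / 5 * δ * (1 + δ ^ 2))) + (δ ^ 3) ^ 2 / 3 := by
    rw [hE0, ← sub_pos]
    have : 2 * (25 / 64 * (δ ^ 3) ^ 2 / (2 / 5 * δ * (1 + δ ^ 2))) + (δ ^ 3) ^ 2 / 3 -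
        (δ ^ 3) ^ 2 / W2 / (4 / 5 * δ) = δ ^ 5 * (125 / 64 * W2 + δ / 3 * (1 + δ ^ 2) * W2 -
          5 / 4 * (1 + δ ^ 2)) / ((1 + δ ^ 2) * W2) := by
      field_simp
      ring
    rw [this]
    apply div_pos _ (by positivity)
    apply mul_pos (by positivity)
    rw [hW2]
    have b2 : δ ^ 4 ≤ 1 / 400 := by nlinarith [sq_nonneg δ]
    have b5 : δ ^ 5 ≤ 1 / 400 := by
      have : δ ^ 5 = δ ^ 3 * δ ^ 2 := by ring
      rw [this]; nlinarith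
    have b3 : δ ^ 6 ≤ 1 / 400 := by nlinarith [sq_nonneg (δ ^ 3)]
    have b4 : δ ^ 8 ≤ 1 / 400 := by nlinarith [sq_nonneg (δ ^ 4)]
    have h8 : 0 < δ * (16 / 75 - 5 / 4 * δ - 5113 / 2400 * δ ^ 2 - 2 / 5 * δ ^ 3 -
        753 / 320 * δ ^ 5 - 1 / 3 * δ ^ 6 - 1 / 3 * δ ^ 8) := by
      apply mul_pos hδ
      linarith
    linear_combination h8
  linarith

theorem not_npc : ¬ BusemannNPC dd := by
  intro h
  obtain ⟨r, hr, H⟩ := h (3 / 5, 0) (mem_v le_rfl (by norm_num))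
  obtain ⟨δ, hδ, hδ', hδr⟩ : ∃ δ : ℝ, 0 < δ ∧ δ ≤ 1 / 20 ∧ δ < r :=
    ⟨min (1 / 20) (r / 2), by positivity, min_le_left _ _,
      lt_of_le_of_lt (min_le_right _ _) (by linarith)⟩
  have hd2 : δ ^ 2 ≤ 1 / 400 := by nlinarith
  have hd3 : δ ^ 3 ≤ 1 / 8000 := by nlinarith [sq_nonneg δ]
  have hd3' : 0 < δ ^ 3 := by positivity
  have hd3'' : δ ^ 3 ≤ δ := by nlinarith
  obtain ⟨u, hu0, hu1, hu, hul⟩ := ex_u hd3' hd3
  obtain ⟨v, hv0, hv1, hv, hvu⟩ := ex_v hδ hδ'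
  have key := main_ineq hδ hδ' hu0 hu1 hu hul hv0 hv1 hv hvu
  have e0 : ((3 / 5 : ℝ), (0 : ℝ)) = (3 / 5 + 0, 0) := by norm_num
  refine absurd (H (3 / 5, 0) (mem_v le_rfl (by norm_num)) (3 / 5 + δ ^ 3, 0) (mem_h hd3'.le hd3)
    (3 / 5, δ) (mem_v hδ.le hδ') ?_ ?_ ?_ (3 / 5 + u, 0) (3 / 5, v) ?_ ?_) (not_le.2 key)
  · rw [dist_self]; exact hr
  · rw [Prod.dist_eq]
    simp only [Real.dist_eq, sub_self, abs_zero]
    rw [show 3 / 5 + δ ^ 3 - 3 / 5 = δ ^ 3 by ring, abs_of_pos hd3']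
    exact max_lt (by linarith) hr
  · rw [Prod.dist_eq]
    simp only [Real.dist_eq, sub_self, abs_zero, sub_zero]
    rw [abs_of_pos hδ]
    exact max_lt hr hδr
  · constructor
    · rw [segment_eq_image']
      refine ⟨u / δ ^ 3, ⟨by positivity, (div_le_one hd3').2 hu1⟩, ?_⟩
      ext
      · simp
        field_simp
      · simp
    · rw [dd_h hu0 hu1 hd3]
      nth_rw 1 [e0]
      rw [dd_h le_rfl hu0 (hu1.trans hd3), gg_zero]
      linarith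
  · constructor
    · rw [segment_eq_image']
      refine ⟨v / δ, ⟨by positivity, (div_le_one hδ).2 hv1⟩, ?_⟩
      ext
      · simp
      · simp
        field_simp
    · rw [dd_v hv0.le hv1 hδ', dd_v le_rfl hv0.le (hv1.trans hδ'), ff_zero]
      linarith

end Pool.Agent.X181.BH
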