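import Pool.Agent.X181.BH.Basic

/-!
# The expansion at `(3/5, 0)`
-/

set_option autoImplicit false

namespace Pool.Agent.X181.BH

open Real

/-- distances along the horizontal diameter -/
theorem hor {s t : ℝ} (hs : -1 < s) (hst : s ≤ t) (ht : t < 1) :
    hf (s, 0) (t, 0) = log ((1 + t) / (1 - t)) - log ((1 + s) / (1 - s)) := by
  have hD : DD (s, 0) (t, 0) = (t - s) ^ 2 := by unfold DD NN; simp; ring
  have hN : NN (s, 0) (t, 0) = 1 - s * t := by unfold NN; simp
  rw [hf, hD, hN, sqrt_sq (by linarith)]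
  have h1 : 0 < 1 + t := by linarith
  have h2 : 0 < 1 - t := by linarith
  have h3 : 0 < 1 + s := by linarith
  have h4 : 0 < 1 - s := by linarith
  rw [← log_div (div_pos h1 h2).ne' (div_pos h3 h4).ne']
  congr 1
  have e1 : 1 - s * t + (t - s) = (1 + t) * (1 - s) := by ring
  have e2 : 1 - s * t - (t - s) = (1 - t) * (1 + s) := by ring
  rw [e1, e2]
  field_simp

/-- distances along the vertical chord through `(3/5, 0)` -/
theorem ver {s t : ℝ} (hs : -(4 / 5) < s) (hst : s ≤ t) (ht : t < 4 / 5) :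
    hf (3 / 5, s) (3 / 5, t) = log ((4 / 5 + t) / (4 / 5 - t)) - log ((4 / 5 + s) / (4 / 5 - s)) := by
  have hD : DD (3 / 5, s) (3 / 5, t) = (4 / 5 * (t - s)) ^ 2 := by unfold DD NN; ring
  have hN : NN (3 / 5, s) (3 / 5, t) = 16 / 25 - s * t := by unfold NN; ring
  rw [hf, hD, hN, sqrt_sq (by linarith)]
  have h1 : 0 < 4 / 5 + t := by linarith
  have h2 : 0 < 4 / 5 - t := by linarith
  have h3 : 0 < 4 / 5 + s := by linarith
  have h4 : 0 < 4 / 5 - s := by linarith
  rw [← log_div (div_pos h1 h2).ne' (div_pos h3 h4).ne']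
  congr 1
  have e1 : 16 / 25 - s * t + 4 / 5 * (t - s) = (4 / 5 + t) * (4 / 5 - s) := by ring
  have e2 : 16 / 25 - s * t - 4 / 5 * (t - s) = (4 / 5 - t) * (4 / 5 + s) := by ring
  rw [e1, e2]
  field_simp

noncomputable def FF (v E : ℝ) : ℝ := 2 * log (√(16 / 25 + E) + √(v ^ 2 + E))

/-- distances of points of the diameter and the vertical chord -/
theorem obl {u v W : ℝ} (hW : W = 16 / 25 - 6 / 5 * u - u ^ 2) (hW0 : 0 < W) (hu : u < 8 / 15)
    (hv : v ^ 2 < 16 / 25) :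
    hf (3 / 5 + u, 0) (3 / 5, v) = FF v (u ^ 2 / W) - log (16 / 25 - v ^ 2) := by
  obtain ⟨N, hN⟩ : ∃ N, N = 16 / 25 - 3 / 5 * u := ⟨_, rfl⟩
  obtain ⟨D, hD⟩ : ∃ D, D = u ^ 2 + v ^ 2 * W := ⟨_, rfl⟩
  have hN' : NN (3 / 5 + u, 0) (3 / 5, v) = N := by rw [hN]; unfold NN; ring
  have hD' : DD (3 / 5 + u, 0) (3 / 5, v) = D := by rw [hD, hW]; unfold DD NN; ring
  have hN0 : 0 < N := by rw [hN]; linarith
  have hND : N ^ 2 - D = W * (16 / 25 - v ^ 2) := by rw [hN, hD, hW]; ring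
  have hD0 : 0 ≤ D := by rw [hD]; positivity
  have hv' : 0 < 16 / 25 - v ^ 2 := by linarith
  have e1 : √(16 / 25 + u ^ 2 / W) = N / √W := by
    have : 16 / 25 + u ^ 2 / W = N ^ 2 / W := by
      field_simp; rw [hN, hW]; ring
    rw [this, sqrt_div' _ hW0.le, sqrt_sq hN0.le]
  have e2 : √(v ^ 2 + u ^ 2 / W) = √D / √W := by
    have : v ^ 2 + u ^ 2 / W = D / W := by
      field_simp; rw [hD]; ring
    rw [this, sqrt_div' _ hW0.le]
  have hsW : 0 < √W := sqrt_pos.2 hW0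
  have hsum : 0 < N + √D := by positivity
  have hdif : 0 < N - √D := by
    have h1 : √D < N := by
      rw [sqrt_lt' hN0]
      have := mul_pos hW0 hv'
      linarith
    linarith
  rw [hf, hN', hD', FF, e1, e2]
  have e3 : (N + √D) / (N - √D) = (N / √W + √D / √W) ^ 2 / (16 / 25 - v ^ 2) := by
    rw [← add_div, div_pow, sq_sqrt hW0.le, div_div, ← hND]
    have : N ^ 2 - D = (N + √D) * (N - √D) := by
      have := sq_sqrt hD0
      linear_combination this
    rw [this]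
    field_simp
  rw [e3, log_div (by positivity) hv'.ne', log_pow]
  push_cast
  ring

theorem FF_deriv {v E : ℝ} (hv : 0 < v) (hE : 0 ≤ E) :
    HasDerivAt (FF v) (1 / √((v ^ 2 + E) * (16 / 25 + E))) E := by
  have hA : 0 < 16 / 25 + E := by positivity
  have hB : 0 < v ^ 2 + E := by positivity
  have h1 : HasDerivAt (fun E => √(16 / 25 + E)) (1 / (2 * √(16 / 25 + E))) E := by
    have := ((hasDerivAt_id E).const_add (16 / 25)).sqrt hA.ne'
    simpa using this
  have h2 : HasDerivAt (fun E => √(v ^ 2 + E)) (1 / (2 * √(v ^ 2 + E))) E := by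
    have := ((hasDerivAt_id E).const_add (v ^ 2)).sqrt hB.ne'
    simpa using this
  have hsA : 0 < √(16 / 25 + E) := sqrt_pos.2 hA
  have hsB : 0 < √(v ^ 2 + E) := sqrt_pos.2 hB
  have h3 := ((h1.add h2).log (by
    show √(16 / 25 + E) + √(v ^ 2 + E) ≠ 0
    positivity)).const_mul 2
  refine h3.congr_deriv ?_
  rw [sqrt_mul hB.le]
  simp only [Pi.add_apply]
  field_simp
  ring

theorem FF_zero {v : ℝ} (hv : 0 < v) : FF v 0 = 2 * log (4 / 5 + v) := by
  have h1 : √((16 : ℝ) / 25 + 0) = 4 / 5 := by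
    rw [show (16 : ℝ) / 25 + 0 = (4 / 5) ^ 2 by norm_num, sqrt_sq (by norm_num)]
  rw [FF, h1, add_zero, sqrt_sq hv.le]

theorem FF_mvt {v E : ℝ} (hv : 0 < v) (hE : 0 < E) :
    E / √((v ^ 2 + E) * (16 / 25 + E)) ≤ FF v E - FF v 0 ∧
      FF v E - FF v 0 ≤ E / (4 / 5 * v) := by
  obtain ⟨c, hc, h⟩ := exists_hasDerivAt_eq_slope (FF v)
    (fun E => 1 / √((v ^ 2 + E) * (16 / 25 + E))) hE
    (fun x hx => (FF_deriv hv hx.1).continuousAt.continuousWithinAt)
    (fun x hx => FF_deriv hv hx.1.le)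
  rw [sub_zero] at h
  have h2 : FF v E - FF v 0 = E * (1 / √((v ^ 2 + c) * (16 / 25 + c))) := by
    rw [h]; field_simp
  have hc1 := hc.1
  have hc2 := hc.2
  rw [h2]
  have hvE : 0 < v ^ 2 + E := by positivity
  have p1 : 0 < (v ^ 2 + c) * (16 / 25 + c) := by positivity
  constructor
  · rw [div_eq_mul_one_div E √((v ^ 2 + E) * (16 / 25 + E))]
    apply mul_le_mul_of_nonneg_left _ hE.le
    apply one_div_le_one_div_of_le (sqrt_pos.2 p1)
    apply sqrt_le_sqrt
    gcongr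
  · rw [div_eq_mul_one_div E (4 / 5 * v)]
    apply mul_le_mul_of_nonneg_left _ hE.le
    apply one_div_le_one_div_of_le (by positivity)
    apply le_sqrt_of_sq_le
    nlinarith [sq_nonneg v, mul_pos hc1 hc1, mul_nonneg hc1.le (sq_nonneg v)]

end Pool.Agent.X181.BH
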